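import Mathlib

/-!
A graph whose upper 4-domination number is smaller than its upper 3-domination number.
-/

namespace Pool.Agent.Results.MP_92077f_co.Counter

open Finset

open Classical in
/-- The weight `g(N[v])` of the closed neighbourhood of `v`. -/
noncomputable def nb {V : Type} [Fintype V] (G : SimpleGraph V) (g : V → ℕ) (v : V) : ℕ :=
  ∑ u with u = v ∨ G.Adj v u, g u

/-- `g` is a minimal `k`-dominating function. -/
def MinK {V : Type} [Fintype V] (G : SimpleGraph V) (k : ℕ) (g : V → ℕ) : Prop :=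
  (∀ v, g v ≤ k) ∧ (∀ v, k ≤ nb G g v) ∧
    ∀ v, 0 < g v → ∃ u, (u = v ∨ G.Adj v u) ∧ nb G g u = k

abbrev J (m : ℕ) := Fin 10 × Fin m × Bool
abbrev V (m : ℕ) := Option (Fin 5 ⊕ J m) ⊕ (J m × Bool)

def A (a : Fin 10) (p : Fin 5) : Bool :=
  p = (![0, 0, 0, 0, 1, 1, 1, 2, 2, 3] : Fin 10 → Fin 5) a ∨
  p = (![1, 2, 3, 4, 2, 3, 4, 3, 4, 4] : Fin 10 → Fin 5) a

variable {m : ℕ}

def fl (j : J m) : J m := (j.1, j.2.1, !j.2.2)

def KU : Option (Fin 5 ⊕ J m) → J m × Bool → Prop
  | none, _ => False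
  | some (.inl p), u => A u.1.1 p = !u.2
  | some (.inr j), u => u = (j, false)

def N : V m → V m → Prop
  | .inl _, .inl _ => True
  | .inl a, .inr u => KU a u
  | .inr u, .inl a => KU a u
  | .inr u, .inr w => w ≠ (u.1, !u.2) ∧ (u.2 = true → w ≠ (fl u.1, true))

lemma fl_fl (j : J m) : fl (fl j) = j := by simp [fl]
lemma fl_ne (j : J m) : fl j ≠ j := by simp [fl, Prod.ext_iff]

lemma N_symm : ∀ a b : V m, N a b → N b a := by
  rintro (a | ⟨i, s⟩) (b | ⟨j, t⟩) h
  exacts [h, h, h, ⟨fun e => h.1 (by cases e; simp), fun (e : t = true) f => by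
    cases f; subst e; exact h.2 rfl (by rw [fl_fl])⟩]

lemma N_refl : ∀ a : V m, N a a := by
  rintro (a | ⟨i, s⟩)
  exacts [trivial, ⟨by simp, fun _ e => fl_ne i (congrArg Prod.fst e).symm⟩]

def G (m : ℕ) : SimpleGraph (V m) where
  Adj a b := a ≠ b ∧ N a b
  symm := ⟨fun a b h => ⟨h.1.symm, N_symm a b h.2⟩⟩
  loopless := ⟨fun _ h => h.1 rfl⟩

lemma cl (u v : V m) : (u = v ∨ (G m).Adj v u) ↔ N v u :=
  ⟨fun h => h.elim (fun e => e ▸ N_refl u) (·.2), fun h => (em _).imp_right fun e => ⟨Ne.symm e, h⟩⟩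

open Classical in
lemma nb_eq (g : V m → ℕ) (v : V m) : nb (G m) g v =
    ∑ a, (if N v (.inl a) then g (.inl a) else 0) + ∑ u, if N v (.inr u) then g (.inr u) else 0 := by
  simp only [nb, cl, sum_filter, Fintype.sum_sum_type]

lemma nbK (g : V m → ℕ) (a u) (h : KU a u) :
    ∑ a, g (.inl a) + g (.inr u) ≤ nb (G m) g (.inl a) := by
  classical
  rw [nb_eq]
  refine add_le_add (by simp [N]) (le_trans ?_ (single_le_sum (fun _ _ => Nat.zero_le _) (mem_univ u)))
  simp [N, h]

lemma nbK' (g : V m → ℕ) (a) : ∑ a, g (.inl a) ≤ nb (G m) g (.inl a) := by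
  rw [nb_eq]; exact le_add_right (by simp [N])

lemma nbY (g : V m → ℕ) : nb (G m) g (.inl none) = ∑ a, g (.inl a) := by
  rw [nb_eq]; simp [N, KU]

lemma nbA (g : V m → ℕ) (j : J m) : nb (G m) g (.inr (j, false)) + g (.inr (j, true)) =
    ∑ p, (if A j.1 p then g (.inl (some (.inl p))) else 0) + g (.inl (some (.inr j))) +
      ∑ u, g (.inr u) := by
  classical
  rw [nb_eq, add_assoc, ← add_sum_erase univ (fun u => g (.inr u)) (mem_univ (j, true)),
    add_comm (g (.inr (j, true))), ← filter_ne', sum_filter]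
  simp [N, KU, Fintype.sum_option, Fintype.sum_sum_type]

lemma nbF (g : V m → ℕ) (j : J m) :
    nb (G m) g (.inr (j, true)) + (g (.inr (j, false)) + g (.inr (fl j, true))) =
    ∑ p, (if A j.1 p then 0 else g (.inl (some (.inl p)))) + ∑ u, g (.inr u) := by
  classical
  rw [nb_eq, add_assoc, ← sum_pair (f := fun u => g (.inr u)) (by simp),
    ← sum_add_sum_compl {(j, false), (fl j, true)} fun u => g (.inr u), add_comm (∑ u ∈ {_, _}, _)]
  congr 1
  · simp only [N, KU, Fintype.sum_option, Fintype.sum_sum_type]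
    simp
    exact sum_congr rfl fun p _ => by cases A j.1 p <;> simp
  · congr 1
    rw [← sum_filter]
    exact sum_congr (by ext; simp [N]) fun _ _ => rfl

lemma core : ∀ c0 < 5, ∀ c1 < 5, ∀ c2 < 5, ∀ c3 < 5, ∀ c4 < 5, ∀ H < 4,
    (∀ a, 4 ≤ ∑ p, (if A a p then 0 else ![c0, c1, c2, c3, c4] p) + H) →
    (0 < H → ∃ a, 5 ≤ ∑ p, (if A a p then 0 else ![c0, c1, c2, c3, c4] p) + H) →
    ∑ a, (4 - (∑ p, (if A a p then ![c0, c1, c2, c3, c4] p else 0) + H)) ≤ 9 := by
  simp only [Fin.sum_univ_succ, Fin.forall_fin_succ, Fin.exists_fin_succ, A]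
  simp
  omega

lemma upper (g : V m → ℕ) (h : MinK (G m) 4 g) : ∑ v, g v ≤ 18 * m + 44 := by
  obtain ⟨h1, h2, h3⟩ := h
  simp only [cl] at h3
  have hS := h2 (.inl none)
  rw [nbY] at hS
  have hH : ∑ u, g (.inr u) ≤ 12 := by
    by_contra hc
    obtain ⟨u, -, hu⟩ := exists_ne_zero_of_sum_ne_zero (show ∑ u, g (.inr u) ≠ 0 by omega)
    obtain ⟨a | ⟨j, _ | _⟩, e1, e2⟩ := h3 _ (Nat.pos_of_ne_zero hu)
    · have := nbK g a u e1; omega
    · have := nbA g j; have := h1 (.inr (j, true)); omega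
    · have := nbF g j; have := h1 (.inr (j, false)); have := h1 (.inr (fl j, true)); omega
  rw [Fintype.sum_sum_type]
  by_cases hc : ∑ a, g (.inl a) = 4
  · omega
  have k : ∀ a, 0 < g (.inl a) → ∃ u, KU a u ∧ nb (G m) g (.inr u) = 4 := fun a ha => by
    obtain ⟨b | u, e1, e2⟩ := h3 _ ha
    · have := nbK' g b; omega
    · exact ⟨u, e1, e2⟩
  have y0 : g (.inl none) = 0 := by
    by_contra e
    exact (k none (Nat.pos_of_ne_zero e)).elim fun _ h => h.1
  have hx : ∀ j, g (.inl (some (.inr j))) ≤ (4 - (∑ p, (if A j.1 p then g (.inl (some (.inl p)))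
      else 0) + ∑ u, g (.inr u))) + g (.inr (j, true)) := fun j => by
    by_contra e
    obtain ⟨_, rfl, e2⟩ := k (some (.inr j)) (by omega)
    have := nbA g j
    omega
  have hx' := sum_le_sum fun j (_ : j ∈ univ) => hx j
  have hC : ∑ p, g (.inl (some (.inl p))) ≤ 20 :=
    (sum_le_card_nsmul _ _ 4 fun p _ => h1 _).trans (by simp)
  have hT : ∑ j, g (.inr (j, true)) ≤ ∑ u, g (.inr u) := by
    rw [Fintype.sum_prod_type (fun u => g (.inr u))]
    exact sum_le_sum fun j _ => by simp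
  have hF : ∀ F : Fin 10 → ℕ, ∑ j : J m, F j.1 = m * 2 * ∑ a, F a := fun F => by
    simp [Fintype.sum_prod_type, mul_sum, mul_assoc, two_mul, mul_add]
  rw [sum_add_distrib, hF fun a => 4 - (∑ p, (if A a p then
    g (.inl (some (.inl p))) else 0) + ∑ u, g (.inr u))] at hx'
  rw [Fintype.sum_option, Fintype.sum_sum_type]
  rcases m.eq_zero_or_pos with rfl | hm
  · omega
  have hΦ : ∑ a, (4 - (∑ p, (if A a p then g (.inl (some (.inl p))) else 0) +
      ∑ u, g (.inr u))) ≤ 9 := by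
    by_cases h4 : ∑ u, g (.inr u) < 4
    · have e : ∀ p, g (.inl (some (.inl p))) = ![g (.inl (some (.inl 0))), g (.inl (some (.inl 1))),
          g (.inl (some (.inl 2))), g (.inl (some (.inl 3))), g (.inl (some (.inl 4)))] p :=
        fun p => by fin_cases p <;> rfl
      have l : ∀ p, g (.inl (some (.inl p))) < 5 := fun p => Nat.lt_succ_of_le (h1 _)
      have := core _ (l 0) _ (l 1) _ (l 2) _ (l 3) _ (l 4) _ h4
      simp only [← e] at this
      refine this (fun a => ?_) fun hp => ?_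
      · have := nbF g (a, ⟨0, hm⟩, true)
        have := h2 (.inr ((a, ⟨0, hm⟩, true), true))
        simp only at *
        omega
      · obtain ⟨⟨j, _ | _⟩, -, hu⟩ := exists_ne_zero_of_sum_ne_zero hp.ne'
        · have := nbF g j
          have := h2 (.inr (j, true))
          exact ⟨j.1, by omega⟩
        · have := nbF g (fl j)
          have := h2 (.inr (fl j, true))
          rw [fl_fl] at *
          exact ⟨(fl j).1, by omega⟩
    · exact (sum_eq_zero fun a _ => by omega).trans_le (by omega)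
  have := Nat.mul_le_mul_left (m * 2) hΦ
  omega

/-- A graph with a minimal 3-dominating function heavier than every minimal 4-dominating
function. -/
theorem result : ∃ (V : Type) (_ : Fintype V) (_ : Nonempty V) (Γ : SimpleGraph V) (g : V → ℕ),
    MinK Γ 3 g ∧ ∀ g', MinK Γ 4 g' → ∑ v, g' v < ∑ v, g v := by
  obtain ⟨m, hm⟩ : ∃ m, 20 ≤ m := ⟨20, le_rfl⟩
  let g : V m → ℕ := Sum.elim (fun a => a.elim 0 fun _ => 1) fun _ => 0
  have s : ∑ a, g (.inl a) = 20 * m + 5 := by
    simp [g, Fintype.sum_option]; omega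
  have a : ∀ j, nb (G m) g (.inr (j, false)) = 3 := fun j => by
    have e : ∀ a, ∑ p, (if A a p then 1 else 0) = 2 := by decide
    simpa [g, -sum_boole, e] using nbA g j
  have f : ∀ j, nb (G m) g (.inr (j, true)) = 3 := fun j => by
    have e : ∀ a, ∑ p, (if A a p then 0 else 1) = 3 := by decide
    simpa [g, -sum_boole, e] using nbF g j
  refine ⟨V m, inferInstance, ⟨.inl none⟩, G m, g, ⟨?_, ?_, ?_⟩, fun g' h => ?_⟩
  · rintro ((_ | _) | _) <;> simp [g]
  · rintro (b | ⟨j, _ | _⟩)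
    exacts [le_trans (by omega) (nbK' g b), (a j).ge, (f j).ge]
  · simp only [cl]
    rintro ((_ | p | j) | u) h
    · simp [g] at h
    · obtain ⟨i, hi⟩ := (by decide : ∀ p, ∃ i, A i p = true) p
      exact ⟨.inr ((i, ⟨0, by omega⟩, true), false), hi, a _⟩
    · exact ⟨.inr (j, false), rfl, a _⟩
    · simp [g] at h
  · have := upper g' h
    rw [Fintype.sum_sum_type (f := g)]
    omega

end Pool.Agent.Results.MP_92077f_co.Counter
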